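import Pool.Agent.helper54.V3.SpecT

set_option autoImplicit false

open Complex Metric Set Filter Topology MeasureTheory

noncomputable section

namespace V3

/-- first and second derivatives of one term -/
theorem NFA_d1 (p g x : ℂ) (h : x - p ≠ 0) :
    HasDerivAt (fun x : ℂ => 1 / (x - p) ^ 2 + g / (x - p))
      (-2 / (x - p) ^ 3 - g / (x - p) ^ 2) x := by
  have h0 : HasDerivAt (fun x : ℂ => x - p) 1 x := (hasDerivAt_id x).sub_const p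
  have h1 := (hasDerivAt_const x (1 : ℂ)).div (h0.pow 2) (pow_ne_zero 2 h)
  have h2 := (hasDerivAt_const x g).div h0 h
  have h3 := h1.add h2
  refine h3.congr_deriv ?_
  simp
  field_simp
  ring

theorem NFA_d2 (p g x : ℂ) (h : x - p ≠ 0) :
    HasDerivAt (fun x : ℂ => -2 / (x - p) ^ 3 - g / (x - p) ^ 2)
      (6 / (x - p) ^ 4 + 2 * g / (x - p) ^ 3) x := by
  have h0 : HasDerivAt (fun x : ℂ => x - p) 1 x := (hasDerivAt_id x).sub_const p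
  have h1 := (hasDerivAt_const x (-2 : ℂ)).div (h0.pow 3) (pow_ne_zero 3 h)
  have h2 := (hasDerivAt_const x g).div (h0.pow 2) (pow_ne_zero 2 h)
  have h3 := h1.sub h2
  refine h3.congr_deriv ?_
  simp
  field_simp
  ring

/-- bounds of one term -/
theorem NFA_b2 (p g x : ℂ) (C : ℝ) (hC : 0 ≤ C) (hg : ‖g‖ ≤ C) (hp : 1 ≤ ‖p‖)
    (hx : ‖x‖ ≤ ‖p‖ / 2) :
    ‖6 / (x - p) ^ 4 + 2 * g / (x - p) ^ 3‖ ≤ (96 + 16 * C) * (1 / ‖p‖ ^ 3) := by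
  have hd : ‖p‖ / 2 ≤ ‖x - p‖ := by
    have := norm_sub_norm_le p x
    rw [norm_sub_rev] at this
    linarith
  have hp0 : 0 < ‖p‖ := by linarith
  have hd0 : 0 < ‖x - p‖ := by linarith
  refine (norm_add_le _ _).trans ?_
  have e1 : ‖6 / (x - p) ^ 4‖ ≤ 96 * (1 / ‖p‖ ^ 3) := by
    rw [norm_div, norm_pow]
    have h4 : (‖p‖ / 2) ^ 4 ≤ ‖x - p‖ ^ 4 := pow_le_pow_left₀ (by positivity) hd 4
    have h6 : ‖(6 : ℂ)‖ = 6 := by simp
    rw [h6, div_le_iff₀ (by positivity), mul_one_div, div_mul_eq_mul_div,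
      le_div_iff₀ (by positivity)]
    nlinarith [pow_pos hp0 3, pow_pos hp0 4, mul_le_mul_of_nonneg_left hp (pow_pos hp0 3).le]
  have e2 : ‖2 * g / (x - p) ^ 3‖ ≤ 16 * C * (1 / ‖p‖ ^ 3) := by
    rw [norm_div, norm_pow, norm_mul]
    have h3 : (‖p‖ / 2) ^ 3 ≤ ‖x - p‖ ^ 3 := pow_le_pow_left₀ (by positivity) hd 3
    have h6 : ‖(2 : ℂ)‖ = 2 := by simp
    rw [h6, div_le_iff₀ (by positivity), mul_one_div, div_mul_eq_mul_div,
      le_div_iff₀ (by positivity)]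
    have h5 : ‖g‖ * ‖p‖ ^ 3 ≤ C * ‖p‖ ^ 3 := mul_le_mul_of_nonneg_right hg (by positivity)
    have h7 : C * (‖p‖ / 2) ^ 3 ≤ C * ‖x - p‖ ^ 3 := mul_le_mul_of_nonneg_left h3 hC
    nlinarith
  calc ‖6 / (x - p) ^ 4‖ + ‖2 * g / (x - p) ^ 3‖
      ≤ 96 * (1 / ‖p‖ ^ 3) + 16 * C * (1 / ‖p‖ ^ 3) := add_le_add e1 e2
    _ = (96 + 16 * C) * (1 / ‖p‖ ^ 3) := by ring

theorem NFA_id (p g x : ℂ) (hp : p ≠ 0) (hx : x - p ≠ 0) :
    1 / (x - p) ^ 2 + g / (x - p) - (1 / p ^ 2 - g / p) - (2 / p ^ 3 - g / p ^ 2) * x =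
      x ^ 2 * ((3 * p - 2 * x) / (p ^ 3 * (x - p) ^ 2) + g / (p ^ 2 * (x - p))) := by
  field_simp
  ring

theorem NFA_b0 (p g x : ℂ) (C : ℝ) (hC : 0 ≤ C) (hg : ‖g‖ ≤ C) (hp : 1 ≤ ‖p‖)
    (hx : ‖x‖ ≤ ‖p‖ / 2) :
    ‖1 / (x - p) ^ 2 + g / (x - p) - (1 / p ^ 2 - g / p) - (2 / p ^ 3 - g / p ^ 2) * x‖ ≤
      ‖x‖ ^ 2 * ((96 + 16 * C) * (1 / ‖p‖ ^ 3)) := by
  have hd : ‖p‖ / 2 ≤ ‖x - p‖ := by
    have := norm_sub_norm_le p x
    rw [norm_sub_rev] at this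
    linarith
  have hp0 : 0 < ‖p‖ := by linarith
  have hd0 : 0 < ‖x - p‖ := by linarith
  rw [NFA_id p g x (norm_pos_iff.mp hp0) (norm_pos_iff.mp hd0), norm_mul, norm_pow]
  refine mul_le_mul_of_nonneg_left ?_ (by positivity)
  refine (norm_add_le _ _).trans ?_
  have e1 : ‖(3 * p - 2 * x) / (p ^ 3 * (x - p) ^ 2)‖ ≤ 96 * (1 / ‖p‖ ^ 3) := by
    rw [norm_div, norm_mul, norm_pow, norm_pow]
    have h2 : (‖p‖ / 2) ^ 2 ≤ ‖x - p‖ ^ 2 := pow_le_pow_left₀ (by positivity) hd 2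
    have h3 : ‖3 * p - 2 * x‖ ≤ 4 * ‖p‖ := by
      refine (norm_sub_le _ _).trans ?_
      rw [norm_mul, norm_mul]
      have h6 : ‖(2 : ℂ)‖ = 2 := by simp
      have h7 : ‖(3 : ℂ)‖ = 3 := by simp
      rw [h6, h7]
      linarith
    rw [mul_one_div, div_le_div_iff₀ (by positivity) (by positivity)]
    have h8 : ‖3 * p - 2 * x‖ ≤ 96 * ‖x - p‖ ^ 2 := by nlinarith
    calc ‖3 * p - 2 * x‖ * ‖p‖ ^ 3 ≤ (96 * ‖x - p‖ ^ 2) * ‖p‖ ^ 3 :=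
          mul_le_mul_of_nonneg_right h8 (by positivity)
      _ = 96 * (‖p‖ ^ 3 * ‖x - p‖ ^ 2) := by ring
  have e2 : ‖g / (p ^ 2 * (x - p))‖ ≤ 16 * C * (1 / ‖p‖ ^ 3) := by
    rw [norm_div, norm_mul, norm_pow, mul_one_div, div_le_div_iff₀ (by positivity) (by positivity)]
    have h5 : ‖g‖ * ‖p‖ ≤ 16 * C * ‖x - p‖ := by nlinarith
    calc ‖g‖ * ‖p‖ ^ 3 = (‖g‖ * ‖p‖) * ‖p‖ ^ 2 := by ring
      _ ≤ (16 * C * ‖x - p‖) * ‖p‖ ^ 2 := mul_le_mul_of_nonneg_right h5 (by positivity)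
      _ = 16 * C * (‖p‖ ^ 2 * ‖x - p‖) := by ring
  calc ‖(3 * p - 2 * x) / (p ^ 3 * (x - p) ^ 2)‖ + ‖g / (p ^ 2 * (x - p))‖
      ≤ 96 * (1 / ‖p‖ ^ 3) + 16 * C * (1 / ‖p‖ ^ 3) := add_le_add e1 e2
    _ = (96 + 16 * C) * (1 / ‖p‖ ^ 3) := by ring

theorem NFA (hNSU : NSU_stmt) : NFA_stmt := by
  classical
  intro c C hc hC
  refine ⟨(96 + 16 * C) * (25 / c ^ 2), by positivity, ?_⟩
  intro ι _ p g ρ hρ hcρ hsep hg
  have hρ0 : 0 < ρ := by linarith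
  -- the sum
  have hsum : ∑ i, (if 2 * ρ ≤ ‖p i‖ then (96 + 16 * C) * (1 / ‖p i‖ ^ 3) else 0) ≤
      (96 + 16 * C) * (25 / c ^ 2) / ρ := by
    rw [← Finset.sum_filter, ← Finset.mul_sum]
    have h1 := hNSU ι p (Finset.univ.filter fun i => 2 * ρ ≤ ‖p i‖) c (2 * ρ) hc (by linarith)
      (fun i _ l _ hil => hsep i l hil) (fun i hi => (Finset.mem_filter.mp hi).2)
    have h2 : (50 : ℝ) / (c ^ 2 * (2 * ρ)) = 25 / c ^ 2 / ρ := by
      field_simp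
      ring
    rw [h2] at h1
    calc (96 + 16 * C) * ∑ i ∈ Finset.univ.filter (fun i => 2 * ρ ≤ ‖p i‖), 1 / ‖p i‖ ^ 3
        ≤ (96 + 16 * C) * (25 / c ^ 2 / ρ) := mul_le_mul_of_nonneg_left h1 (by positivity)
      _ = (96 + 16 * C) * (25 / c ^ 2) / ρ := by ring
  have hne : ∀ x ∈ ball (0 : ℂ) (2 * ρ), ∀ i, 2 * ρ ≤ ‖p i‖ → x - p i ≠ 0 := by
    intro x hx i hi h0
    rw [sub_eq_zero] at h0
    rw [mem_ball_zero_iff, h0] at hx
    linarith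
  have hD1 : ∀ x ∈ ball (0 : ℂ) (2 * ρ), HasDerivAt (far p g (2 * ρ))
      (∑ i, if 2 * ρ ≤ ‖p i‖ then (-2 / (x - p i) ^ 3 - g i / (x - p i) ^ 2) else 0) x := by
    intro x hx
    have : HasDerivAt (fun x => ∑ i, if 2 * ρ ≤ ‖p i‖ then
        (1 / (x - p i) ^ 2 + g i / (x - p i)) else 0)
      (∑ i, if 2 * ρ ≤ ‖p i‖ then (-2 / (x - p i) ^ 3 - g i / (x - p i) ^ 2) else 0) x := by
      refine HasDerivAt.fun_sum ?_
      intro i _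
      by_cases hi : 2 * ρ ≤ ‖p i‖
      · simp only [hi, if_true]
        exact NFA_d1 (p i) (g i) x (hne x hx i hi)
      · simp only [hi, if_false]
        exact hasDerivAt_const x 0
    exact this
  have hD2 : ∀ x ∈ ball (0 : ℂ) (2 * ρ), HasDerivAt (fun x => ∑ i, if 2 * ρ ≤ ‖p i‖ then
        (-2 / (x - p i) ^ 3 - g i / (x - p i) ^ 2) else 0)
      (∑ i, if 2 * ρ ≤ ‖p i‖ then (6 / (x - p i) ^ 4 + 2 * g i / (x - p i) ^ 3) else 0) x := by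
    intro x hx
    refine HasDerivAt.fun_sum ?_
    intro i _
    by_cases hi : 2 * ρ ≤ ‖p i‖
    · simp only [hi, if_true]
      exact NFA_d2 (p i) (g i) x (hne x hx i hi)
    · simp only [hi, if_false]
      exact hasDerivAt_const x 0
  refine ⟨fun x hx => (hD1 x hx).differentiableAt.differentiableWithinAt, ?_, ?_⟩
  · intro x hx
    rw [mem_closedBall_zero_iff] at hx
    have hxb : x ∈ ball (0 : ℂ) (2 * ρ) := by
      rw [mem_ball_zero_iff]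
      linarith
    have hev : deriv (far p g (2 * ρ)) =ᶠ[𝓝 x] fun x => ∑ i, if 2 * ρ ≤ ‖p i‖ then
        (-2 / (x - p i) ^ 3 - g i / (x - p i) ^ 2) else 0 := by
      filter_upwards [isOpen_ball.mem_nhds hxb] with y hy
      exact (hD1 y hy).deriv
    have h2 : iteratedDeriv 2 (far p g (2 * ρ)) x =
        ∑ i, if 2 * ρ ≤ ‖p i‖ then (6 / (x - p i) ^ 4 + 2 * g i / (x - p i) ^ 3) else 0 := by
      rw [iteratedDeriv_succ, iteratedDeriv_one, hev.deriv_eq]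
      exact (hD2 x hxb).deriv
    rw [h2]
    refine (norm_sum_le _ _).trans (le_trans (Finset.sum_le_sum ?_) hsum)
    intro i _
    by_cases hi : 2 * ρ ≤ ‖p i‖
    · simp only [hi, if_true]
      exact NFA_b2 (p i) (g i) x C hC (hg i) (by linarith) (by linarith)
    · simp [hi]
  · refine ⟨∑ i, (if 2 * ρ ≤ ‖p i‖ then (1 / p i ^ 2 - g i / p i) else 0),
      ∑ i, (if 2 * ρ ≤ ‖p i‖ then (2 / p i ^ 3 - g i / p i ^ 2) else 0), ?_⟩
    intro x hx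
    rw [mem_closedBall_zero_iff] at hx
    unfold far
    rw [Finset.sum_mul, ← Finset.sum_sub_distrib, ← Finset.sum_sub_distrib]
    refine (norm_sum_le _ _).trans ?_
    calc ∑ i, ‖(if 2 * ρ ≤ ‖p i‖ then (1 / (x - p i) ^ 2 + g i / (x - p i)) else 0) -
          (if 2 * ρ ≤ ‖p i‖ then (1 / p i ^ 2 - g i / p i) else 0) -
          (if 2 * ρ ≤ ‖p i‖ then (2 / p i ^ 3 - g i / p i ^ 2) else 0) * x‖
        ≤ ∑ i, ‖x‖ ^ 2 * (if 2 * ρ ≤ ‖p i‖ then (96 + 16 * C) * (1 / ‖p i‖ ^ 3) else 0) := by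
          refine Finset.sum_le_sum ?_
          intro i _
          by_cases hi : 2 * ρ ≤ ‖p i‖
          · simp only [hi, if_true]
            exact NFA_b0 (p i) (g i) x C hC (hg i) (by linarith) (by linarith)
          · simp [hi]
      _ = ‖x‖ ^ 2 * ∑ i, (if 2 * ρ ≤ ‖p i‖ then (96 + 16 * C) * (1 / ‖p i‖ ^ 3) else 0) := by
          rw [Finset.mul_sum]
      _ ≤ ‖x‖ ^ 2 * ((96 + 16 * C) * (25 / c ^ 2) / ρ) :=
          mul_le_mul_of_nonneg_left hsum (by positivity)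
      _ = (96 + 16 * C) * (25 / c ^ 2) * ‖x‖ ^ 2 / ρ := by ring

end V3
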